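import Mathlib

namespace Pool.Agent.Results.MP_2b0b8a_al.CactusTen

/-- The index set of the generators of `J_n`: the pairs `(p, q)` with `1 ≤ p < q ≤ n`. -/
structure Ivl (n : ℕ) where
  p : ℕ
  q : ℕ
  one_le : 1 ≤ p
  lt : p < q
  le : q ≤ n

/-- The relations of the cactus group. -/
def rels (n : ℕ) : Set (FreeGroup (Ivl n)) :=
  {w | (∃ a : Ivl n, w = FreeGroup.of a * FreeGroup.of a) ∨
    (∃ a b : Ivl n, (a.q < b.p ∨ b.q < a.p) ∧
      w = FreeGroup.of a * FreeGroup.of b * (FreeGroup.of b * FreeGroup.of a)⁻¹) ∨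
    (∃ a b c : Ivl n, (a.p ≤ b.p ∧ b.q ≤ a.q ∧ c.p + b.q = a.p + a.q ∧ c.q + b.p = a.p + a.q) ∧
      w = FreeGroup.of a * FreeGroup.of b * (FreeGroup.of c * FreeGroup.of a)⁻¹)}

/-- The cactus group `J_n`. -/
abbrev Cactus (n : ℕ) : Type := PresentedGroup (rels n)

/-- Reversal of the coordinates of `A^r`. -/
def revAut (A : Type) [Group A] (r : ℕ) : MulAut (Fin r → A) where
  toFun f := fun i => f (Fin.rev i)
  invFun f := fun i => f (Fin.rev i)
  left_inv f := by funext i; simp
  right_inv f := by funext i; simp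
  map_mul' f g := rfl

/-- The action of `ℤ/2` on `A^r` in which the nontrivial element reverses the coordinates. -/
def revHom (A : Type) [Group A] (r : ℕ) : Multiplicative (ZMod 2) →* MulAut (Fin r → A) where
  toFun z := if Multiplicative.toAdd z = 0 then 1 else revAut A r
  map_one' := by simp
  map_mul' a b := by
    have hsq : revAut A r * revAut A r = 1 := by
      ext f i
      simp [revAut]
    have h : ∀ z : ZMod 2, z = 0 ∨ z = 1 := by decide
    rcases h (Multiplicative.toAdd a) with ha | ha <;> rcases h (Multiplicative.toAdd b) with hb | hb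
      <;> simp [ha, hb, toAdd_mul]
    · rw [if_pos (by decide), hsq]

/-- The iterated construction: `W [] = ℤ/2` and `W (r :: l) = W l ≀_r ℤ/2`, so that
`W(r_1, …, r_s)` is `W [r_s, …, r_1]`. -/
def W : List ℕ → GrpCat.{0}
  | [] => GrpCat.of (Multiplicative (ZMod 2))
  | r :: l => GrpCat.of ((Fin r → W l) ⋊[revHom (W l) r] Multiplicative (ZMod 2))

/-- The group `G` embeds into the group `H`. -/
def Embeds (G H : Type) [Group G] [Group H] : Prop := ∃ f : G →* H, Function.Injective f

section orders

theorem card_W_nil : Nat.card (W []) = 2 := by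
  show Nat.card (Multiplicative (ZMod 2)) = 2
  simp

theorem card_W_cons (r : ℕ) (l : List ℕ) : Nat.card (W (r :: l)) = (Nat.card (W l)) ^ r * 2 := by
  show Nat.card ((Fin r → W l) ⋊[revHom (W l) r] Multiplicative (ZMod 2)) = _
  rw [Nat.card_congr (SemidirectProduct.equivProd), Nat.card_prod, Nat.card_fun]
  simp

theorem finite_W (l : List ℕ) : Finite (W l) := by
  induction l with
  | nil => exact inferInstanceAs (Finite (ZMod 2))
  | cons r l ih =>
    have : Finite ((Fin r → W l) × Multiplicative (ZMod 2)) := inferInstance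
    exact Finite.of_equiv _ (SemidirectProduct.equivProd (N := (Fin r → W l))
      (G := Multiplicative (ZMod 2)) (φ := revHom (W l) r)).symm

theorem card_W_le {l : List ℕ} (hl : ∀ r ∈ l, 2 ≤ r) (hp : 2 * l.prod ≤ 10) :
    Nat.card (W l) ≤ 128 := by
  match l, hl, hp with
  | [], _, _ => rw [card_W_nil]; norm_num
  | [r], hl, hp =>
    rw [card_W_cons, card_W_nil]
    have h1 : 2 * r ≤ 10 := by simpa using hp
    have h2 : r ≤ 5 := by omega
    calc 2 ^ r * 2 ≤ 2 ^ 5 * 2 := Nat.mul_le_mul_right 2 (Nat.pow_le_pow_right (by norm_num) h2)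
      _ ≤ 128 := by norm_num
  | [r, t], hl, hp =>
    have hr : 2 ≤ r := hl r (by simp)
    have ht : 2 ≤ t := hl t (by simp)
    have h5 : r * t ≤ 5 := by
      have : 2 * (r * t) ≤ 10 := by simpa using hp
      omega
    have hr2 : r = 2 := by nlinarith
    have ht2 : t = 2 := by nlinarith
    rw [card_W_cons, card_W_cons, card_W_nil, hr2, ht2]
    norm_num
  | r :: t :: u :: m, hl, hp =>
    exfalso
    have hr : 2 ≤ r := hl r (by simp)
    have ht : 2 ≤ t := hl t (by simp)
    have hu : 2 ≤ u := hl u (by simp)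
    have hm : 0 < m.prod := List.prod_pos (fun x hx => by
      have := hl x (by simp [hx])
      omega)
    have h1 : 2 * 2 ≤ r * t := Nat.mul_le_mul hr ht
    have h2 : 2 * 1 ≤ u * m.prod := Nat.mul_le_mul hu hm
    have h3 : (2 * 2) * (2 * 1) ≤ (r * t) * (u * m.prod) := Nat.mul_le_mul h1 h2
    have h4 : (r :: t :: u :: m).prod = (r * t) * (u * m.prod) := by
      simp only [List.prod_cons]; ring
    rw [h4] at hp
    omega

end orders

section doubling

variable {G : Type} [Group G]

theorem card_double (S : Set G) (s : G) (hs : s * s = 1)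
    (hn : ∀ k ∈ S, s * k * s⁻¹ ∈ Subgroup.closure S) (hnot : s ∉ Subgroup.closure S)
    {m : ℕ} (hcard : Nat.card (Subgroup.closure S) = m) :
    Nat.card (Subgroup.closure (insert s S)) = 2 * m := by
  classical
  set K := Subgroup.closure S with hK
  have hsinv : s⁻¹ = s := inv_eq_of_mul_eq_one_right hs
  have hconj : ∀ k ∈ K, s * k * s⁻¹ ∈ K := by
    have : K ≤ K.comap (MulAut.conj s).toMonoidHom := by
      rw [hK, Subgroup.closure_le]
      intro k hk
      have := hn k hk
      simpa using this
    intro k hk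
    simpa using this hk
  have hconj' : ∀ k, s * k * s ∈ K → k ∈ K := by
    intro k hk
    have h1 := hconj _ hk
    rw [hsinv] at h1
    have h2 : s * (s * k * s) * s = (s * s) * k * (s * s) := by group
    rw [h2, hs] at h1
    simpa using h1
  -- the union `K ∪ sK`
  let K' : Subgroup G :=
    { carrier := {x | x ∈ K ∨ s * x ∈ K}
      one_mem' := Or.inl K.one_mem
      mul_mem' := by
        rintro a b (ha | ha) (hb | hb)
        · exact Or.inl (K.mul_mem ha hb)
        · right
          have h1 := hconj a ha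
          rw [hsinv] at h1
          have h2 : s * (a * b) = (s * a * s) * (s * b) := by
            rw [mul_assoc (s * a) s, ← mul_assoc s s, hs, one_mul, mul_assoc]
          rw [h2]
          exact K.mul_mem h1 hb
        · right
          rw [← mul_assoc]
          exact K.mul_mem ha hb
        · left
          have h1 : a * s ∈ K := by
            apply hconj'
            have h3 : s * (a * s) * s = s * a * (s * s) := by group
            rw [h3, hs, mul_one]
            exact ha
          have h2 : a * b = (a * s) * (s * b) := by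
            rw [mul_assoc a s, ← mul_assoc s s, hs, one_mul]
          rw [h2]
          exact K.mul_mem h1 hb
      inv_mem' := by
        rintro a (ha | ha)
        · exact Or.inl (K.inv_mem ha)
        · right
          have h1 := K.inv_mem ha
          rw [mul_inv_rev, hsinv] at h1
          have h2 := hconj _ h1
          rw [hsinv] at h2
          have h3 : s * (a⁻¹ * s) * s = s * a⁻¹ * (s * s) := by group
          rw [h3, hs, mul_one] at h2
          exact h2 }
  have hK' : Subgroup.closure (insert s S) = K' := by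
    apply le_antisymm
    · rw [Subgroup.closure_le]
      intro x hx
      rcases hx with rfl | hx
      · exact Or.inr (by rw [hs]; exact K.one_mem)
      · exact Or.inl (Subgroup.subset_closure hx)
    · have hsub : K ≤ Subgroup.closure (insert s S) :=
        Subgroup.closure_mono (Set.subset_insert s S)
      have hsm : s ∈ Subgroup.closure (insert s S) :=
        Subgroup.subset_closure (Set.mem_insert s S)
      rintro x (hx | hx)
      · exact hsub hx
      · have h1 := Subgroup.mul_mem _ hsm (hsub hx)
        rwa [← mul_assoc, hs, one_mul] at h1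
  rw [hK']
  have hdisj : ∀ x, x ∈ K → s * x ∈ K → False := by
    intro x h1 h2
    apply hnot
    have := K.mul_mem h2 (K.inv_mem h1)
    rwa [mul_inv_cancel_right] at this
  let e : K ⊕ K ≃ K' :=
    { toFun := fun t => match t with
        | Sum.inl k => ⟨k.1, Or.inl k.2⟩
        | Sum.inr k => ⟨s * k.1, Or.inr (by rw [← mul_assoc, hs, one_mul]; exact k.2)⟩
      invFun := fun x => if h : x.1 ∈ K then Sum.inl ⟨x.1, h⟩
        else Sum.inr ⟨s * x.1, x.2.resolve_left h⟩
      left_inv := by
        rintro (k | k)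
        · simp
        · have h : ¬ (s * k.1) ∈ K := fun h => hdisj k.1 k.2 h
          simp only [h, dite_false]
          congr 1
          ext
          simp [← mul_assoc, hs]
      right_inv := by
        intro x
        by_cases h : x.1 ∈ K
        · simp [h]
        · simp only [h, dite_false]
          ext
          simp [← mul_assoc, hs] }
  by_cases hfin : Finite K
  · rw [← Nat.card_congr e, Nat.card_sum, hcard]
    ring
  · have : Infinite K := not_finite_iff_infinite.mp hfin
    have h0 : m = 0 := by
      rw [← hcard]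
      exact Nat.card_eq_zero_of_infinite
    have : Infinite K' := Infinite.of_injective (fun k : K => e (Sum.inl k))
      (e.injective.comp Sum.inl_injective)
    rw [Nat.card_eq_zero_of_infinite, h0]

end doubling

section perm

/-- The reversal of the interval `[p, q]`, as a function on `ℕ`. -/
def flip {n : ℕ} (a : Ivl n) (x : ℕ) : ℕ := if a.p ≤ x ∧ x ≤ a.q then a.p + a.q - x else x

theorem flip_flip {n : ℕ} (a : Ivl n) : Function.Involutive (flip a) := by
  intro x
  unfold flip
  split_ifs <;> omega

/-- The reversal of the interval `[p, q]`, as a permutation of `ℕ`. -/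
def flipPerm {n : ℕ} (a : Ivl n) : Equiv.Perm ℕ := (flip_flip a).toPerm

theorem flipPerm_apply {n : ℕ} (a : Ivl n) (x : ℕ) : flipPerm a x = flip a x := rfl

theorem rels_hold {n : ℕ} : ∀ w ∈ rels n, FreeGroup.lift (flipPerm (n := n)) w = 1 := by
  rintro w (⟨a, rfl⟩ | ⟨a, b, h, rfl⟩ | ⟨a, b, c, h, rfl⟩)
  · rw [map_mul, FreeGroup.lift_apply_of]
    ext x
    simp only [Equiv.Perm.mul_apply, flipPerm_apply, Equiv.Perm.one_apply]
    exact flip_flip a x
  · rw [map_mul, map_inv, map_mul, map_mul, mul_inv_eq_one, FreeGroup.lift_apply_of,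
      FreeGroup.lift_apply_of]
    ext x
    have ha := a.lt
    have hb := b.lt
    simp only [Equiv.Perm.mul_apply, flipPerm_apply, flip]
    split_ifs <;> omega
  · rw [map_mul, map_inv, map_mul, map_mul, mul_inv_eq_one, FreeGroup.lift_apply_of,
      FreeGroup.lift_apply_of, FreeGroup.lift_apply_of]
    ext x
    have ha := a.lt
    have hb := b.lt
    have hc := c.lt
    simp only [Equiv.Perm.mul_apply, flipPerm_apply, flip]
    split_ifs <;> omega

/-- The action of `J_n` on `ℕ` (fixing all the numbers outside `[1, n]`). -/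
def toPerm (n : ℕ) : Cactus n →* Equiv.Perm ℕ := PresentedGroup.toGroup rels_hold

theorem toPerm_of {n : ℕ} (a : Ivl n) : toPerm n (PresentedGroup.of a) = flipPerm a :=
  PresentedGroup.toGroup.of _

/-- The elements of `J_n` preserving a subset of `ℕ`. -/
def Pres {n : ℕ} (P : ℕ → Prop) : Subgroup (Cactus n) where
  carrier := {g | ∀ x, P (toPerm n g x) ↔ P x}
  one_mem' := by intro x; simp
  mul_mem' := by
    intro a b ha hb x
    rw [map_mul, Equiv.Perm.mul_apply, ha, hb]
  inv_mem' := by
    intro a ha x
    rw [← ha (toPerm n a⁻¹ x), ← Equiv.Perm.mul_apply, ← map_mul, mul_inv_cancel, map_one,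
      Equiv.Perm.one_apply]

theorem not_mem_closure {n : ℕ} {S : Set (Cactus n)} {s : Cactus n} (P : ℕ → Prop)
    (hS : ∀ k ∈ S, ∀ x, P (toPerm n k x) ↔ P x) (x : ℕ) (hx : ¬ (P (toPerm n s x) ↔ P x)) :
    s ∉ Subgroup.closure S := by
  intro h
  have : Subgroup.closure S ≤ Pres P := (Subgroup.closure_le _).mpr hS
  exact hx (this h x)

end perm

section ten

/-- The generator `s_{p,q}` of `J_10`. -/
def s (p q : ℕ) : Cactus 10 :=
  if h : (1 ≤ p ∧ p < q) ∧ q ≤ 10 then PresentedGroup.of ⟨p, q, h.1.1, h.1.2, h.2⟩ else 1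

theorem s_eq {p q : ℕ} (h1 : 1 ≤ p) (h2 : p < q) (h3 : q ≤ 10) :
    s p q = PresentedGroup.of ⟨p, q, h1, h2, h3⟩ := dif_pos ⟨⟨h1, h2⟩, h3⟩

theorem s_sq {p q : ℕ} (h1 : 1 ≤ p) (h2 : p < q) (h3 : q ≤ 10) :
    s p q * s p q = 1 := by
  rw [s_eq h1 h2 h3]
  have h : FreeGroup.of (⟨p, q, h1, h2, h3⟩ : Ivl 10) * FreeGroup.of ⟨p, q, h1, h2, h3⟩ ∈
      rels 10 := Or.inl ⟨_, rfl⟩
  have := PresentedGroup.one_of_mem h
  rwa [map_mul] at this

theorem s_comm {p q m r : ℕ}
    (h : ((1 ≤ p ∧ p < q ∧ q ≤ 10) ∧ (1 ≤ m ∧ m < r ∧ r ≤ 10)) ∧ (q < m ∨ r < p)) :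
    s p q * s m r * (s p q)⁻¹ = s m r := by
  obtain ⟨⟨⟨h1, h2, h3⟩, ⟨k1, k2, k3⟩⟩, h⟩ := h
  rw [s_eq h1 h2 h3, s_eq k1 k2 k3]
  have h : FreeGroup.of (⟨p, q, h1, h2, h3⟩ : Ivl 10) * FreeGroup.of ⟨m, r, k1, k2, k3⟩ *
      (FreeGroup.of (⟨m, r, k1, k2, k3⟩ : Ivl 10) * FreeGroup.of ⟨p, q, h1, h2, h3⟩)⁻¹ ∈
      rels 10 := Or.inr (Or.inl ⟨_, _, h, rfl⟩)
  have := PresentedGroup.one_of_mem h
  rw [map_mul, map_inv, map_mul, map_mul, mul_inv_eq_one] at this
  exact mul_inv_eq_of_eq_mul this

theorem s_conj {p q m r u v : ℕ}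
    (h : ((1 ≤ p ∧ p < q ∧ q ≤ 10) ∧ (1 ≤ m ∧ m < r ∧ r ≤ 10)) ∧
      (p ≤ m ∧ r ≤ q ∧ u + r = p + q ∧ v + m = p + q)) :
    s p q * s m r * (s p q)⁻¹ = s u v := by
  obtain ⟨⟨⟨h1, h2, h3⟩, ⟨k1, k2, k3⟩⟩, h⟩ := h
  have l1 : 1 ≤ u := by omega
  have l2 : u < v := by omega
  have l3 : v ≤ 10 := by omega
  rw [s_eq h1 h2 h3, s_eq k1 k2 k3, s_eq l1 l2 l3]
  have h : FreeGroup.of (⟨p, q, h1, h2, h3⟩ : Ivl 10) * FreeGroup.of ⟨m, r, k1, k2, k3⟩ *
      (FreeGroup.of (⟨u, v, l1, l2, l3⟩ : Ivl 10) * FreeGroup.of ⟨p, q, h1, h2, h3⟩)⁻¹ ∈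
      rels 10 := Or.inr (Or.inr ⟨_, _, _, h, rfl⟩)
  have := PresentedGroup.one_of_mem h
  rw [map_mul, map_inv, map_mul, map_mul, mul_inv_eq_one] at this
  exact mul_inv_eq_of_eq_mul this

theorem toPerm_s {p q : ℕ} (h : 1 ≤ p ∧ p < q ∧ q ≤ 10) (x : ℕ) :
    toPerm 10 (s p q) x = if p ≤ x ∧ x ≤ q then p + q - x else x := by
  rw [s_eq h.1 h.2.1 h.2.2, toPerm_of]
  rfl

/-- The eight elements `s_{1,10}, s_{7,10}, s_{1,4}, s_{9,10}, s_{7,8}, s_{5,6}, s_{3,4}, s_{1,2}` of
`J_10`; they generate a subgroup of order `256`. -/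
def gens : Set (Cactus 10) :=
  insert (s 1 10) (insert (s 7 10) (insert (s 1 4) (insert (s 9 10) (insert (s 7 8)
    (insert (s 5 6) (insert (s 3 4) (insert (s 1 2) ∅)))))))

theorem card_gens : Nat.card (Subgroup.closure gens) = 256 := by
  have c0 : Nat.card (Subgroup.closure (∅ : Set (Cactus 10))) = 1 := by
    rw [Subgroup.closure_empty]; simp
  have c1 := card_double ∅ (s 1 2) (s_sq (by norm_num) (by norm_num) (by norm_num)) (by simp)
    (not_mem_closure (fun x => x = 1) (by simp) 1 (by rw [toPerm_s (by norm_num)]; norm_num)) c0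
  have c2 := card_double _ (s 3 4) (s_sq (by norm_num) (by norm_num) (by norm_num))
    (by
      intro k hk
      simp only [Set.mem_insert_iff, Set.mem_empty_iff_false, or_false] at hk
      subst hk
      · rw [s_comm (by norm_num)]; exact Subgroup.subset_closure (by simp))
    (not_mem_closure (fun x => x = 3)
      (by
        intro k hk x
        simp only [Set.mem_insert_iff, Set.mem_empty_iff_false, or_false] at hk
        subst hk
        rw [toPerm_s (by norm_num)]; split_ifs <;> omega) 3 (by rw [toPerm_s (by norm_num)]; norm_num)) c1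
  have c3 := card_double _ (s 5 6) (s_sq (by norm_num) (by norm_num) (by norm_num))
    (by
      intro k hk
      simp only [Set.mem_insert_iff, Set.mem_empty_iff_false, or_false] at hk
      rcases hk with rfl | rfl
      · rw [s_comm (by norm_num)]; exact Subgroup.subset_closure (by simp)
      · rw [s_comm (by norm_num)]; exact Subgroup.subset_closure (by simp))
    (not_mem_closure (fun x => x = 5)
      (by
        intro k hk x
        simp only [Set.mem_insert_iff, Set.mem_empty_iff_false, or_false] at hk
        rcases hk with rfl | rfl <;> rw [toPerm_s (by norm_num)] <;> split_ifs <;> omega) 5 (by rw [toPerm_s (by norm_num)]; norm_num)) c2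
  have c4 := card_double _ (s 7 8) (s_sq (by norm_num) (by norm_num) (by norm_num))
    (by
      intro k hk
      simp only [Set.mem_insert_iff, Set.mem_empty_iff_false, or_false] at hk
      rcases hk with rfl | rfl | rfl
      · rw [s_comm (by norm_num)]; exact Subgroup.subset_closure (by simp)
      · rw [s_comm (by norm_num)]; exact Subgroup.subset_closure (by simp)
      · rw [s_comm (by norm_num)]; exact Subgroup.subset_closure (by simp))
    (not_mem_closure (fun x => x = 7)
      (by
        intro k hk x
        simp only [Set.mem_insert_iff, Set.mem_empty_iff_false, or_false] at hk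
        rcases hk with rfl | rfl | rfl <;> rw [toPerm_s (by norm_num)] <;> split_ifs <;> omega) 7 (by rw [toPerm_s (by norm_num)]; norm_num)) c3
  have c5 := card_double _ (s 9 10) (s_sq (by norm_num) (by norm_num) (by norm_num))
    (by
      intro k hk
      simp only [Set.mem_insert_iff, Set.mem_empty_iff_false, or_false] at hk
      rcases hk with rfl | rfl | rfl | rfl
      · rw [s_comm (by norm_num)]; exact Subgroup.subset_closure (by simp)
      · rw [s_comm (by norm_num)]; exact Subgroup.subset_closure (by simp)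
      · rw [s_comm (by norm_num)]; exact Subgroup.subset_closure (by simp)
      · rw [s_comm (by norm_num)]; exact Subgroup.subset_closure (by simp))
    (not_mem_closure (fun x => x = 9)
      (by
        intro k hk x
        simp only [Set.mem_insert_iff, Set.mem_empty_iff_false, or_false] at hk
        rcases hk with rfl | rfl | rfl | rfl <;> rw [toPerm_s (by norm_num)] <;> split_ifs <;> omega) 9 (by rw [toPerm_s (by norm_num)]; norm_num)) c4
  have c6 := card_double _ (s 1 4) (s_sq (by norm_num) (by norm_num) (by norm_num))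
    (by
      intro k hk
      simp only [Set.mem_insert_iff, Set.mem_empty_iff_false, or_false] at hk
      rcases hk with rfl | rfl | rfl | rfl | rfl
      · rw [s_comm (by norm_num)]; exact Subgroup.subset_closure (by simp)
      · rw [s_comm (by norm_num)]; exact Subgroup.subset_closure (by simp)
      · rw [s_comm (by norm_num)]; exact Subgroup.subset_closure (by simp)
      · rw [s_conj (u := 1) (v := 2) (by norm_num)]; exact Subgroup.subset_closure (by simp)
      · rw [s_conj (u := 3) (v := 4) (by norm_num)]; exact Subgroup.subset_closure (by simp))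
    (not_mem_closure (fun x => x = 1 ∨ x = 2)
      (by
        intro k hk x
        simp only [Set.mem_insert_iff, Set.mem_empty_iff_false, or_false] at hk
        rcases hk with rfl | rfl | rfl | rfl | rfl <;> rw [toPerm_s (by norm_num)] <;> split_ifs <;> omega) 1 (by rw [toPerm_s (by norm_num)]; norm_num)) c5
  have c7 := card_double _ (s 7 10) (s_sq (by norm_num) (by norm_num) (by norm_num))
    (by
      intro k hk
      simp only [Set.mem_insert_iff, Set.mem_empty_iff_false, or_false] at hk
      rcases hk with rfl | rfl | rfl | rfl | rfl | rfl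
      · rw [s_comm (by norm_num)]; exact Subgroup.subset_closure (by simp)
      · rw [s_conj (u := 7) (v := 8) (by norm_num)]; exact Subgroup.subset_closure (by simp)
      · rw [s_conj (u := 9) (v := 10) (by norm_num)]; exact Subgroup.subset_closure (by simp)
      · rw [s_comm (by norm_num)]; exact Subgroup.subset_closure (by simp)
      · rw [s_comm (by norm_num)]; exact Subgroup.subset_closure (by simp)
      · rw [s_comm (by norm_num)]; exact Subgroup.subset_closure (by simp))
    (not_mem_closure (fun x => x = 7 ∨ x = 8)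
      (by
        intro k hk x
        simp only [Set.mem_insert_iff, Set.mem_empty_iff_false, or_false] at hk
        rcases hk with rfl | rfl | rfl | rfl | rfl | rfl <;> rw [toPerm_s (by norm_num)] <;> split_ifs <;> omega) 7 (by rw [toPerm_s (by norm_num)]; norm_num)) c6
  have c8 := card_double _ (s 1 10) (s_sq (by norm_num) (by norm_num) (by norm_num))
    (by
      intro k hk
      simp only [Set.mem_insert_iff, Set.mem_empty_iff_false, or_false] at hk
      rcases hk with rfl | rfl | rfl | rfl | rfl | rfl | rfl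
      · rw [s_conj (u := 1) (v := 4) (by norm_num)]; exact Subgroup.subset_closure (by simp)
      · rw [s_conj (u := 7) (v := 10) (by norm_num)]; exact Subgroup.subset_closure (by simp)
      · rw [s_conj (u := 1) (v := 2) (by norm_num)]; exact Subgroup.subset_closure (by simp)
      · rw [s_conj (u := 3) (v := 4) (by norm_num)]; exact Subgroup.subset_closure (by simp)
      · rw [s_conj (u := 5) (v := 6) (by norm_num)]; exact Subgroup.subset_closure (by simp)
      · rw [s_conj (u := 7) (v := 8) (by norm_num)]; exact Subgroup.subset_closure (by simp)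
      · rw [s_conj (u := 9) (v := 10) (by norm_num)]; exact Subgroup.subset_closure (by simp))
    (not_mem_closure (fun x => x = 1 ∨ x = 2 ∨ x = 3 ∨ x = 4)
      (by
        intro k hk x
        simp only [Set.mem_insert_iff, Set.mem_empty_iff_false, or_false] at hk
        rcases hk with rfl | rfl | rfl | rfl | rfl | rfl | rfl <;> rw [toPerm_s (by norm_num)] <;> split_ifs <;> omega) 1 (by rw [toPerm_s (by norm_num)]; norm_num)) c7
  exact c8

end ten

/-- The group `⟨s_{1,2}, s_{3,4}, s_{5,6}, s_{7,8}, s_{9,10}, s_{1,4}, s_{7,10}, s_{1,10}⟩ ≤ J_10` has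
order `256` and does not embed into any `W(r_1, …, r_s)` with `r_k ≥ 2` and
`r_1 ⋯ r_s ≤ 10 / 2`. Hence the proposed characterization of the finite subgroups of the cactus
groups is false. -/
theorem result : (Nat.card (Subgroup.closure gens) = 256 ∧
      ∀ l : List ℕ, (∀ r ∈ l, 2 ≤ r) → 2 * l.prod ≤ 10 → ¬ Embeds (Subgroup.closure gens) (W l)) ∧
    ¬ ∀ n : ℕ, 2 ≤ n → ∀ (G : Type) [Group G] [Finite G],
      (Embeds G (Cactus n) ↔ ∃ l : List ℕ, (∀ r ∈ l, 2 ≤ r) ∧ 2 * l.prod ≤ n ∧ Embeds G (W l)) := by
  have key : ∀ l : List ℕ, (∀ r ∈ l, 2 ≤ r) → 2 * l.prod ≤ 10 →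
      ¬ Embeds (Subgroup.closure gens) (W l) := by
    rintro l hl hp ⟨f, hf⟩
    have := finite_W l
    have h1 := Nat.card_le_card_of_injective f hf
    have h2 := card_W_le hl hp
    rw [card_gens] at h1
    omega
  refine ⟨⟨card_gens, key⟩, ?_⟩
  intro h
  have hfin : Finite (Subgroup.closure gens) :=
    Nat.finite_of_card_ne_zero (by rw [card_gens]; norm_num)
  obtain ⟨l, hl, hp, he⟩ := (h 10 (by norm_num) (Subgroup.closure gens)).mp
    ⟨(Subgroup.closure gens).subtype, Subtype.val_injective⟩
  exact key l hl hp he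

end Pool.Agent.Results.MP_2b0b8a_al.CactusTen
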